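import Pool.Agent.Helper599_UF.Data

/-!
# Hitting sets for unit fraction relations: results of the search
-/

namespace Pool.Agent.Helper599UF

set_option maxRecDepth 100000

theorem run6 : run ms6 200 true 0 0 0 0 = true := by decide +kernel
theorem run12 : run ms12 200 true 0 0 1 0 = true := by decide +kernel
theorem run15 : run ms15 200 true 0 0 2 0 = true := by decide +kernel
theorem run20 : run ms20 200 true 0 0 3 0 = true := by decide +kernel
theorem run30 : run ms30 200 true 0 0 4 0 = true := by decide +kernel
theorem run36 : run ms36 200 true 0 0 5 0 = true := by decide +kernel
theorem run40 : run ms40 200 true 0 0 6 0 = true := by decide +kernel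
theorem run45 : run ms45 200 true 0 0 7 0 = true := by decide +kernel
theorem run48 : run ms48 200 true 0 0 8 0 = true := by decide +kernel
theorem run60 : run ms60 200 true 0 0 9 0 = true := by decide +kernel
theorem run75 : run ms75 200 true 0 0 10 0 = true := by decide +kernel

end Pool.Agent.Helper599UF
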