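import Pool.Agent.Helper599_UF.Data

/-!
# Hitting sets for unit fraction relations: result of the search up to 120
-/

namespace Pool.Agent.Helper599UF

set_option maxRecDepth 100000

theorem run120 : run ms120 200 true 0 0 14 0 = true := by decide +kernel

end Pool.Agent.Helper599UF
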