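import Pool.Agent.Helper599_UF.Data

/-!
# Hitting sets for unit fraction relations: soundness of the search
-/

namespace Pool.Agent.Helper599UF

open Finset

/-- The elements of `p` outside the mask `c`. -/
def rest (p : Finset ℕ) (c : ℕ) : Finset ℕ := p.filter fun i => c.testBit i = false

theorem land_eq_zero {m c i : ℕ} (h : m &&& c = 0) (hm : m.testBit i = true) :
    c.testBit i = false := by
  have h1 : (m &&& c).testBit i = false := by rw [h]; simp
  rw [Nat.testBit_and, hm] at h1
  simpa using h1

theorem testBit_diff (m f i : ℕ) :
    (m ^^^ (m &&& f)).testBit i = (m.testBit i && !f.testBit i) := by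
  rw [Nat.testBit_xor, Nat.testBit_and]
  cases m.testBit i <;> cases f.testBit i <;> rfl

theorem scan_sound (p : Finset ℕ) (c f : ℕ) (hf : ∀ i ∈ p, f.testBit i = false) :
    ∀ (l : List ℕ) (used k pick : ℕ), (∀ m ∈ l, ∃ i ∈ p, m.testBit i = true) →
      (scan c f l used k pick = none → k < ((rest p c).filter fun i => used.testBit i = false).card) ∧
      (∀ q, scan c f l used k pick = some q → q = pick ∨
        ((∃ i ∈ p, q.testBit i = true) ∧ ∀ i, q.testBit i = true → c.testBit i = false)) := by
  intro l
  induction l with
  | nil =>
    intro used k pick _
    simp only [scan]
    refine ⟨fun h => by simp at h, fun q hq => ?_⟩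
    left
    simpa using hq.symm
  | cons m l ih =>
    intro used k pick hl
    have hl' : ∀ m ∈ l, ∃ i ∈ p, m.testBit i = true := fun m hm => hl m (List.mem_cons_of_mem _ hm)
    obtain ⟨i, hip, him⟩ := hl m List.mem_cons_self
    rw [scan.eq_def]
    dsimp only
    by_cases hc : m &&& c = 0
    · rw [if_pos hc]
      have hic : c.testBit i = false := land_eq_zero hc him
      have hiq : (m ^^^ (m &&& f)).testBit i = true := by
        rw [testBit_diff, him, hf i hip]; rfl
      have hq0 : m ^^^ (m &&& f) ≠ 0 := by
        intro h0
        rw [h0] at hiq
        simp at hiq
      rw [if_neg hq0]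
      set q := m ^^^ (m &&& f) with hq
      have hqc : ∀ j, q.testBit j = true → c.testBit j = false := by
        intro j hj
        rw [hq, testBit_diff] at hj
        apply land_eq_zero hc
        revert hj
        cases m.testBit j <;> simp
      have hpick : ∀ r, (r = if pick = 0 then q else pick) → r = pick ∨
          ((∃ i ∈ p, r.testBit i = true) ∧ ∀ i, r.testBit i = true → c.testBit i = false) := by
        intro r hr
        by_cases hp : pick = 0
        · rw [if_pos hp] at hr
          right
          rw [hr]
          exact ⟨⟨i, hip, hiq⟩, hqc⟩
        · rw [if_neg hp] at hr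
          exact Or.inl hr
      by_cases hu : q &&& used = 0
      · rw [if_pos hu]
        have hiu : used.testBit i = false := land_eq_zero hu hiq
        have hmem : i ∈ (rest p c).filter fun i => used.testBit i = false := by
          rw [mem_filter, rest, mem_filter]
          exact ⟨⟨hip, hic⟩, hiu⟩
        cases k with
        | zero =>
          refine ⟨fun _ => Finset.card_pos.2 ⟨i, hmem⟩, fun r hr => by simp at hr⟩
        | succ k =>
          simp only
          obtain ⟨h1, h2⟩ := ih (used ||| q) k (if pick = 0 then q else pick) hl'
          refine ⟨fun h => ?_, fun r hr => ?_⟩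
          · have h3 := h1 h
            have hsub : ((rest p c).filter fun i => (used ||| q).testBit i = false) ⊆
                ((rest p c).filter fun i => used.testBit i = false).erase i := by
              intro j hj
              rw [mem_filter, Nat.testBit_or] at hj
              rw [mem_erase, mem_filter]
              refine ⟨?_, hj.1, ?_⟩
              · rintro rfl
                rw [hiq] at hj
                simp at hj
              · revert hj
                cases used.testBit j <;> simp
            have h4 := Finset.card_le_card hsub
            rw [Finset.card_erase_of_mem hmem] at h4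
            omega
          · rcases h2 r hr with h | h
            · exact hpick r h
            · exact Or.inr h
      · rw [if_neg hu]
        obtain ⟨h1, h2⟩ := ih used k (if pick = 0 then q else pick) hl'
        refine ⟨h1, fun r hr => ?_⟩
        rcases h2 r hr with h | h
        · exact hpick r h
        · exact Or.inr h
    · rw [if_neg hc]
      exact ih used k pick hl'

theorem run_sound (p : Finset ℕ) (ms : List ℕ) (hit : ∀ m ∈ ms, ∃ i ∈ p, m.testBit i = true) :
    ∀ (n c f k q : ℕ), (∀ i, c.testBit i = true → i ∈ p) → (∀ i ∈ p, f.testBit i = false) →
      (run ms n true c f k q = true → k < (rest p c).card) ∧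
      (run ms n false c f k q = true → (∃ i ∈ p, q.testBit i = true) →
        (∀ i, q.testBit i = true → c.testBit i = false) → k + 1 < (rest p c).card) := by
  intro n
  induction n with
  | zero =>
    intro c f k q _ _
    simp [run]
  | succ n ih =>
    intro c f k q hc hf
    obtain ⟨s1, s2⟩ := scan_sound p c f hf ms 0 k 0 hit
    constructor
    · intro h
      rw [run] at h
      cases hs : scan c f ms 0 k 0 with
      | none =>
        have h3 := s1 hs
        refine lt_of_lt_of_le h3 (Finset.card_filter_le _ _)
      | some r =>
        rw [hs] at h
        simp only at h
        cases k with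
        | zero => simp at h
        | succ k =>
          simp only at h
          by_cases hr : r = 0
          · rw [if_pos hr] at h
            exact absurd h (by simp)
          · rw [if_neg hr] at h
            rcases s2 r hs with h4 | ⟨h4, h5⟩
            · exact absurd h4 hr
            · exact (ih c f k r hc hf).2 h h4 h5
    · intro h hq hqc
      rw [run] at h
      by_cases h0 : q = 0
      · obtain ⟨i, _, hi⟩ := hq
        rw [h0] at hi
        simp at hi
      · rw [if_neg h0, Bool.and_eq_true] at h
        obtain ⟨ha, hb⟩ := h
        have hlog : q.testBit q.log2 = true := Nat.testBit_log2 h0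
        set b := q.log2 with hbdef
        have hcb : c.testBit b = false := hqc b hlog
        by_cases hbp : b ∈ p
        · have hc' : ∀ i, (c ||| 2 ^ b).testBit i = true → i ∈ p := by
            intro i hi
            rw [Nat.testBit_or, Nat.testBit_two_pow, Bool.or_eq_true] at hi
            rcases hi with hi | hi
            · exact hc i hi
            · have : b = i := by simpa using hi
              rw [← this]; exact hbp
          have h1 := (ih (c ||| 2 ^ b) f k 0 hc' hf).1 ha
          have hmem : b ∈ rest p c := by
            rw [rest, mem_filter]; exact ⟨hbp, hcb⟩
          have hsub : rest p (c ||| 2 ^ b) ⊆ (rest p c).erase b := by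
            intro j hj
            rw [rest, mem_filter, Nat.testBit_or, Nat.testBit_two_pow] at hj
            rw [mem_erase, rest, mem_filter]
            obtain ⟨hjp, hj2⟩ := hj
            rw [Bool.or_eq_false_iff] at hj2
            refine ⟨?_, hjp, hj2.1⟩
            rintro rfl
            have := hj2.2
            simp at this
          have h4 := Finset.card_le_card hsub
          rw [Finset.card_erase_of_mem hmem] at h4
          have h5 : 0 < (rest p c).card := Finset.card_pos.2 ⟨b, hmem⟩
          omega
        · have hf' : ∀ i ∈ p, (f ||| 2 ^ b).testBit i = false := by
            intro i hi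
            rw [Nat.testBit_or, Nat.testBit_two_pow, hf i hi]
            have : b ≠ i := fun h => hbp (h ▸ hi)
            simp [this]
          have hbits : ∀ i, (q ^^^ 2 ^ b).testBit i = true → q.testBit i = true := by
            intro i hi
            by_cases hbi : b = i
            · rw [← hbi]; exact hlog
            · rw [Nat.testBit_xor, Nat.testBit_two_pow] at hi
              simpa [hbi] using hi
          refine (ih c (f ||| 2 ^ b) k (q ^^^ 2 ^ b) hc hf').2 hb ?_ ?_
          · obtain ⟨i, hip, hi⟩ := hq
            refine ⟨i, hip, ?_⟩
            have hbi : b ≠ i := fun h => hbp (h ▸ hip)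
            rw [Nat.testBit_xor, Nat.testBit_two_pow, hi]
            simp [hbi]
          · intro i hi
            exact hqc i (hbits i hi)

/-- If the search succeeds, every set meeting all masks has more than `k` elements. -/
theorem run_card {p : Finset ℕ} {ms : List ℕ} {n k : ℕ} (h : run ms n true 0 0 k 0 = true)
    (hit : ∀ m ∈ ms, ∃ i ∈ p, m.testBit i = true) : k < p.card := by
  have h1 := (run_sound p ms hit n 0 0 k 0 (by simp) (by simp)).1 h
  exact lt_of_lt_of_le h1 (Finset.card_filter_le _ _)

end Pool.Agent.Helper599UF
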